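import Mathlib
import Pool.Agent.PercThree.Core

open MeasureTheory ProbabilityTheory

open Pool.Agent.PercThree

namespace Pool.Agent.Results.MP_56182f_pr.ThreeTerminal

universe u v

/-- The random graph of open edges.  Here `isOpen e` is the event that the edge `e` of `G` is
open; at the outcome `ω` the graph has vertex set `V`, and its edges are exactly the edges of `G`
that are open at `ω`. -/
def openGraph {V : Type u} {Ω : Type v} (G : SimpleGraph V) (isOpen : G.edgeSet → Set Ω)
    (ω : Ω) : SimpleGraph V :=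
  SimpleGraph.fromEdgeSet {e | ∃ h : e ∈ G.edgeSet, ω ∈ isOpen ⟨e, h⟩}

/-- The event that the vertices `x` and `y` are joined by a path of open edges. -/
def conn {V : Type u} {Ω : Type v} (G : SimpleGraph V) (isOpen : G.edgeSet → Set Ω)
    (x y : V) : Set Ω :=
  {ω | (openGraph G isOpen ω).Reachable x y}

/-! ### Transfer from a general probability space -/

section transfer

variable {V : Type u} {Ω : Type v} [Fintype V] (G : SimpleGraph V) [MeasurableSpace Ω]
  (P : Measure Ω) [IsProbabilityMeasure P] (isOpen : G.edgeSet → Set Ω)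

open Classical in
/-- the finite set of all edges -/
noncomputable def edges : Finset (Sym2 V) := G.edgeSet.toFinset

open Classical in
/-- the finite set of open edges -/
noncomputable def openSet (ω : Ω) : Finset (Sym2 V) :=
  (edges G).filter (fun e => ∃ h : e ∈ G.edgeSet, ω ∈ isOpen ⟨e, h⟩)

open Classical in
/-- the edge probabilities -/
noncomputable def prob (e : Sym2 V) : ℝ :=
  if h : e ∈ G.edgeSet then P.real (isOpen ⟨e, h⟩) else 0

omit [Fintype V] in
lemma prob_mem (e : Sym2 V) : 0 ≤ prob G P isOpen e ∧ prob G P isOpen e ≤ 1 := by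
  unfold prob
  by_cases h : e ∈ G.edgeSet
  · rw [dif_pos h]; exact ⟨measureReal_nonneg, measureReal_le_one⟩
  · rw [dif_neg h]; norm_num

lemma mem_edges (e : Sym2 V) : e ∈ edges G ↔ e ∈ G.edgeSet := by
  unfold edges; simp

omit [MeasurableSpace Ω] in
open Classical in
lemma openSet_eq_iff (S : Finset (Sym2 V)) (hS : S ⊆ edges G) (ω : Ω) :
    openSet G isOpen ω = S ↔
      ω ∈ ⋂ e : G.edgeSet, (if (e : Sym2 V) ∈ S then isOpen e else (isOpen e)ᶜ) := by
  rw [Set.mem_iInter, Finset.ext_iff]
  constructor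
  · intro h e
    have he := h e
    unfold openSet at he
    rw [Finset.mem_filter, mem_edges] at he
    by_cases heS : (e : Sym2 V) ∈ S
    · rw [if_pos heS]
      obtain ⟨_, h1, h2⟩ := he.2 heS
      exact h2
    · rw [if_neg heS]
      intro h'
      exact heS (he.1 ⟨e.2, e.2, h'⟩)
  · intro h e
    unfold openSet
    rw [Finset.mem_filter, mem_edges]
    constructor
    · rintro ⟨_, h1, h2⟩
      by_contra heS
      have := h ⟨e, h1⟩
      rw [if_neg heS] at this
      exact this h2
    · intro heS
      have h1 : e ∈ G.edgeSet := (mem_edges G e).1 (hS heS)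
      have := h ⟨e, h1⟩
      rw [if_pos heS] at this
      exact ⟨h1, h1, this⟩

open Classical in
lemma measure_openSet_eq (hm : ∀ e, MeasurableSet (isOpen e)) (hi : iIndepSet isOpen P)
    (S : Finset (Sym2 V)) (hS : S ⊆ edges G) :
    P.real {ω | openSet G isOpen ω = S}
      = (∏ e ∈ S, prob G P isOpen e) * ∏ e ∈ edges G \ S, (1 - prob G P isOpen e) := by
  have h1 : {ω | openSet G isOpen ω = S}
      = ⋂ e : G.edgeSet, (if (e : Sym2 V) ∈ S then isOpen e else (isOpen e)ᶜ) := by
    ext ω
    exact openSet_eq_iff G isOpen S hS ω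
  have h2 : P (⋂ e : G.edgeSet, (if (e : Sym2 V) ∈ S then isOpen e else (isOpen e)ᶜ))
      = ∏ e : G.edgeSet, P (if (e : Sym2 V) ∈ S then isOpen e else (isOpen e)ᶜ) := by
    refine iIndep.meas_iInter (m := fun e => MeasurableSpace.generateFrom {isOpen e}) hi ?_
    intro e
    have hb : MeasurableSet[MeasurableSpace.generateFrom {isOpen e}] (isOpen e) :=
      MeasurableSpace.measurableSet_generateFrom rfl
    split_ifs
    · exact hb
    · exact hb.compl
  rw [h1, Measure.real, h2, ENNReal.toReal_prod]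
  have h3 : ∀ e : G.edgeSet, (P (if (e : Sym2 V) ∈ S then isOpen e else (isOpen e)ᶜ)).toReal
      = if (e : Sym2 V) ∈ S then prob G P isOpen e else 1 - prob G P isOpen e := by
    intro e
    have hpe : prob G P isOpen e = P.real (isOpen e) := by
      unfold prob
      rw [dif_pos e.2]
    by_cases he : (e : Sym2 V) ∈ S
    · rw [if_pos he, if_pos he, hpe]; rfl
    · rw [if_neg he, if_neg he, hpe]
      exact probReal_compl_eq_one_sub (hm e)
  rw [Finset.prod_congr rfl fun e _ => h3 e]
  have h4 : ∏ e : G.edgeSet, (if (e : Sym2 V) ∈ S then prob G P isOpen e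
        else 1 - prob G P isOpen e)
      = ∏ e ∈ edges G, (if e ∈ S then prob G P isOpen e else 1 - prob G P isOpen e) := by
    unfold edges
    exact (Finset.prod_subtype (G.edgeSet.toFinset) (fun x => by simp)
      (fun e => if e ∈ S then prob G P isOpen e else 1 - prob G P isOpen e)).symm
  rw [h4, ← Finset.prod_sdiff hS, mul_comm]
  congr 1
  · exact Finset.prod_congr rfl fun e he => by rw [if_pos he]
  · exact Finset.prod_congr rfl fun e he => by rw [if_neg (Finset.mem_sdiff.1 he).2]

open Classical in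
lemma measurableSet_openSet_eq (hm : ∀ e, MeasurableSet (isOpen e))
    (S : Finset (Sym2 V)) (hS : S ⊆ edges G) :
    MeasurableSet {ω | openSet G isOpen ω = S} := by
  have h1 : {ω | openSet G isOpen ω = S}
      = ⋂ e : G.edgeSet, (if (e : Sym2 V) ∈ S then isOpen e else (isOpen e)ᶜ) := by
    ext ω
    exact openSet_eq_iff G isOpen S hS ω
  rw [h1]
  refine MeasurableSet.iInter fun e => ?_
  split_ifs
  · exact hm e
  · exact (hm e).compl

open Classical in
lemma measure_eq_ex (hm : ∀ e, MeasurableSet (isOpen e)) (hi : iIndepSet isOpen P)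
    (Q : Finset (Sym2 V) → Prop) :
    P.real {ω | Q (openSet G isOpen ω)} = ex (prob G P isOpen) (edges G) (fun S => ind (Q S)) := by
  have h1 : {ω | Q (openSet G isOpen ω)}
      = ⋃ S ∈ (edges G).powerset.filter Q, {ω | openSet G isOpen ω = S} := by
    ext ω
    simp only [Set.mem_ofPred_eq, Set.mem_iUnion, Finset.mem_filter, Finset.mem_powerset,
      exists_prop, exists_eq_right']
    constructor
    · intro h
      exact ⟨Finset.filter_subset _ _, h⟩
    · exact fun h => h.2
  rw [h1, measureReal_biUnion_finset]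
  · unfold ex
    rw [Finset.sum_filter]
    refine Finset.sum_congr rfl fun S hS => ?_
    by_cases hQ : Q S
    · rw [if_pos hQ, show (fun S => ind (Q S)) S = 1 from ind_true hQ, mul_one,
        measure_openSet_eq G P isOpen hm hi S (Finset.mem_powerset.1 hS)]
    · rw [if_neg hQ, show (fun S => ind (Q S)) S = 0 from ind_false hQ, mul_zero]
  · intro S _ T _ hST
    refine Set.disjoint_left.2 fun ω h1 h2 => hST ?_
    rw [Set.mem_ofPred_eq] at h1 h2
    rw [← h1, ← h2]
  · intro S hS
    exact measurableSet_openSet_eq G isOpen hm S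
      (Finset.mem_powerset.1 (Finset.mem_filter.1 hS).1)

omit [MeasurableSpace Ω] in
open Classical in
lemma reachable_iff (ω : Ω) (x y : V) :
    (openGraph G isOpen ω).Reachable x y ↔ JoinedTo (openSet G isOpen ω) {x} y := by
  have hadj : ∀ s t : V, (openGraph G isOpen ω).Adj s t ↔ adj (openSet G isOpen ω) s t := by
    intro s t
    unfold openGraph adj openSet
    rw [SimpleGraph.fromEdgeSet_adj, Finset.mem_filter, mem_edges]
    constructor
    · rintro ⟨⟨h1, h2⟩, _⟩
      exact ⟨h1, h1, h2⟩
    · rintro ⟨_, h1, h2⟩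
      refine ⟨⟨h1, h2⟩, ?_⟩
      exact (G.mem_edgeSet.1 h1).ne
  rw [SimpleGraph.reachable_iff_reflTransGen]
  unfold JoinedTo cl
  simp only [Set.mem_singleton_iff, exists_eq_left, Set.mem_ofPred_eq]
  have : (openGraph G isOpen ω).Adj = adj (openSet G isOpen ω) := by
    funext s t
    exact propext (hadj s t)
  rw [this]

end transfer

/-- **Three-terminal partition probabilities in bond percolation.**
For every `ε > 0` there is a `δ > 0` such that for all finite simple graphs `G`, all Bernoulli
bond percolations on `G` (the edges `e` of `G` are open on independent events `isOpen e`, whose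
probabilities are arbitrary) and all triples of distinct vertices `a, b, c`: if both
`P(ab‖c) < δ` and `P(ac‖b) < δ`, then `P(abc) < ε` or `P(a‖b‖c) < ε`.
(The proof gives `δ = ε ^ 3 / 4`.) -/
theorem result (ε : ℝ) (hε : 0 < ε) :
    ∃ δ : ℝ, 0 < δ ∧ ∀ (V : Type u) [Finite V] (G : SimpleGraph V) (Ω : Type v)
      [MeasurableSpace Ω] (P : Measure Ω) [IsProbabilityMeasure P] (isOpen : G.edgeSet → Set Ω),
      (∀ e, MeasurableSet (isOpen e)) → iIndepSet isOpen P →
      ∀ a b c : V, a ≠ b → a ≠ c → b ≠ c →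
        P.real (conn G isOpen a b ∩ (conn G isOpen a c)ᶜ) < δ →
        P.real (conn G isOpen a c ∩ (conn G isOpen a b)ᶜ) < δ →
        P.real (conn G isOpen a b ∩ conn G isOpen a c) < ε ∨
          P.real ((conn G isOpen a b)ᶜ ∩ (conn G isOpen a c)ᶜ ∩ (conn G isOpen b c)ᶜ) < ε := by
  refine ⟨ε ^ 3 / 4, by positivity, ?_⟩
  intro V _ G Ω _ P _ isOpen hm hi a b c hab hac _ hu hv
  classical
  have := Fintype.ofFinite V
  by_contra hcon
  push Not at hcon
  obtain ⟨hx, hz⟩ := hcon
  have e1 : conn G isOpen a b ∩ (conn G isOpen a c)ᶜ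
      = {ω | JoinedTo (openSet G isOpen ω) {a} b ∧ ¬ JoinedTo (openSet G isOpen ω) {a} c} := by
    ext ω
    simp only [conn, Set.mem_inter_iff, Set.mem_compl_iff, Set.mem_ofPred_eq, reachable_iff]
  have e2 : conn G isOpen a c ∩ (conn G isOpen a b)ᶜ
      = {ω | JoinedTo (openSet G isOpen ω) {a} c ∧ ¬ JoinedTo (openSet G isOpen ω) {a} b} := by
    ext ω
    simp only [conn, Set.mem_inter_iff, Set.mem_compl_iff, Set.mem_ofPred_eq, reachable_iff]
  have e3 : conn G isOpen a b ∩ conn G isOpen a c
      = {ω | JoinedTo (openSet G isOpen ω) {a} b ∧ JoinedTo (openSet G isOpen ω) {a} c} := by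
    ext ω
    simp only [conn, Set.mem_inter_iff, Set.mem_ofPred_eq, reachable_iff]
  have e4 : (conn G isOpen a b)ᶜ ∩ (conn G isOpen a c)ᶜ ∩ (conn G isOpen b c)ᶜ
      = {ω | ¬ JoinedTo (openSet G isOpen ω) {a} b ∧ ¬ JoinedTo (openSet G isOpen ω) {a} c
        ∧ ¬ JoinedTo (openSet G isOpen ω) {b} c} := by
    ext ω
    simp only [conn, Set.mem_inter_iff, Set.mem_compl_iff, Set.mem_ofPred_eq, reachable_iff,
      and_assoc]
  rw [e1, measure_eq_ex G P isOpen hm hi
    (fun S => JoinedTo S {a} b ∧ ¬ JoinedTo S {a} c)] at hu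
  rw [e2, measure_eq_ex G P isOpen hm hi
    (fun S => JoinedTo S {a} c ∧ ¬ JoinedTo S {a} b)] at hv
  rw [e3, measure_eq_ex G P isOpen hm hi
    (fun S => JoinedTo S {a} b ∧ JoinedTo S {a} c)] at hx
  rw [e4, measure_eq_ex G P isOpen hm hi
    (fun S => ¬ JoinedTo S {a} b ∧ ¬ JoinedTo S {a} c ∧ ¬ JoinedTo S {b} c)] at hz
  exact three_terminal (prob_mem G P isOpen) (edges G) hab hac hε hu hv hx hz

end Pool.Agent.Results.MP_56182f_pr.ThreeTerminal
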